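import Mathlib

/-!
Reserve (replaced by ReversibleForm).

# Emptiness of `P_{A,B}` is equivalent to emptiness of the intersection of two deterministic automata

`skip A` is `A` over the alphabet with two new letters, which are ignored. `back B` simulates `B`
backwards: it starts with a choice of an accepting state of `B`, and after each letter `a` it chooses a
state `q'` with `B.step q' a = q`, where `q` is the current state. The choices are made deterministic by
the new letters `inr true` (go to the next candidate) and `inr false` (select the present candidate); the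
state `(q', some a)` needs not remember `q = B.step q' a`. So `back B` has `(|α| + 2) k + 1` states.
-/

set_option autoImplicit false

namespace Pool.Agent.Lib.Reserve.MP_cde0c0_lc.IntersectionEquivalence

open Classical in
/-- the least `q` with `i ≤ q` and `P q` -/
noncomputable def lst {k : ℕ} (P : Fin k → Prop) (i : ℕ) : Option (Fin k) :=
  (List.finRange k).find? (fun q => decide (i ≤ q.val ∧ P q))

/-- the automaton `A`, which ignores the two new letters -/
def skip {α σ : Type} (A : DFA α σ) : DFA (α ⊕ Bool) σ where
  step := fun p c => match c with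
    | Sum.inl a => A.step p a
    | Sum.inr _ => p
  start := A.start
  accept := A.accept

/-- the candidates beside `q'`: the states with the same successor under the letter, or the accepting
states -/
def sib {α : Type} {k : ℕ} (B : DFA α (Fin k)) (q' : Fin k) : Option α → Fin k → Prop
  | some a => fun q'' => B.step q'' a = B.step q' a
  | none => fun q'' => q'' ∈ B.accept

/-- the states of the backward simulation: a state of `B`, or a candidate with a letter or `none`, or
the dead state -/
abbrev BS (α : Type) (k : ℕ) : Type := Option (Fin k ⊕ (Fin k × Option α))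

/-- one step of the backward simulation of `B` -/
noncomputable def bstep {α : Type} {k : ℕ} (B : DFA α (Fin k)) : BS α k → α ⊕ Bool → BS α k
  | some (Sum.inl q), Sum.inl a =>
      (lst (fun q' => B.step q' a = q) 0).map (fun q' => Sum.inr (q', some a))
  | some (Sum.inr (q', o)), Sum.inr true =>
      (lst (sib B q' o) (q'.val + 1)).map (fun q'' => Sum.inr (q'', o))
  | some (Sum.inr (q', _)), Sum.inr false => some (Sum.inl q')
  | _, _ => none

/-- the backward simulation of `B` -/
noncomputable def back {α : Type} {k : ℕ} (B : DFA α (Fin k)) : DFA (α ⊕ Bool) (BS α k) where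
  step := bstep B
  start := (lst (fun q' => q' ∈ B.accept) 0).map (fun q' => Sum.inr (q', none))
  accept := {some (Sum.inl B.start)}

section aux

variable {α σ : Type} {k : ℕ}

theorem lst_some {P : Fin k → Prop} {i : ℕ} {r : Fin k} (h : lst P i = some r) :
    i ≤ r.val ∧ P r := by
  classical
  unfold lst at h
  have := List.find?_some h
  simpa using this

theorem lst_exists {P : Fin k → Prop} {i : ℕ} {q : Fin k} (hi : i ≤ q.val) (hq : P q) :
    ∃ r : Fin k, lst P i = some r ∧ i ≤ r.val ∧ P r ∧ r.val ≤ q.val := by
  classical
  have h1 : ((List.finRange k).find? (fun q => decide (i ≤ q.val ∧ P q))).isSome := by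
    rw [List.find?_isSome]
    exact ⟨q, List.mem_finRange q, by simpa using ⟨hi, hq⟩⟩
  obtain ⟨r, hr⟩ := Option.isSome_iff_exists.1 h1
  have hr' : lst P i = some r := hr
  refine ⟨r, hr', (lst_some hr').1, (lst_some hr').2, ?_⟩
  rw [List.find?_eq_some_iff_append] at hr
  obtain ⟨_, as, bs, hl, has⟩ := hr
  have hmem : q ∈ as ++ r :: bs := hl ▸ List.mem_finRange q
  rw [List.mem_append, List.mem_cons] at hmem
  rcases hmem with hmem | hmem | hmem
  · have := has q hmem
    simp [hi, hq] at this
  · rw [hmem]
  · have hp : (as ++ r :: bs).Pairwise (· < ·) := hl ▸ List.pairwise_lt_finRange k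
    rw [List.pairwise_append] at hp
    have h2 := (List.pairwise_cons.1 hp.2.1).1 q hmem
    exact le_of_lt h2

/-- the word without the new letters -/
def erase (y : List (α ⊕ Bool)) : List α := y.filterMap Sum.getLeft?

theorem erase_inl (a : α) (y : List (α ⊕ Bool)) : erase (Sum.inl a :: y) = a :: erase y := rfl

theorem erase_inr (b : Bool) (y : List (α ⊕ Bool)) : erase (Sum.inr b :: y) = erase y := rfl

theorem erase_append (y z : List (α ⊕ Bool)) : erase (y ++ z) = erase y ++ erase z :=
  List.filterMap_append

theorem erase_reverse (y : List (α ⊕ Bool)) : erase y.reverse = (erase y).reverse :=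
  List.filterMap_reverse

theorem erase_replicate (t : ℕ) (b : Bool) :
    erase (List.replicate t (Sum.inr b : α ⊕ Bool)) = [] := by
  induction t with
  | zero => rfl
  | succ t ih => rw [List.replicate_succ, erase_inr, ih]

theorem skip_eval (A : DFA α σ) (y : List (α ⊕ Bool)) :
    ∀ p, (skip A).evalFrom p y = A.evalFrom p (erase y) := by
  induction y with
  | nil => intro p; rfl
  | cons c y ih =>
    intro p
    rw [DFA.evalFrom_cons, ih]
    cases c with
    | inl a => rw [erase_inl, DFA.evalFrom_cons]; rfl
    | inr b => rw [erase_inr]; rfl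

theorem skip_accepts (A : DFA α σ) (y : List (α ⊕ Bool)) :
    y ∈ (skip A).accepts ↔ erase y ∈ A.accepts := by
  rw [DFA.mem_accepts, DFA.mem_accepts]
  unfold DFA.eval
  rw [skip_eval]
  rfl

/-- the meaning of the states -/
def Sem (B : DFA α (Fin k)) : BS α k → List α → Prop
  | none, _ => False
  | some (Sum.inl q), x => B.evalFrom B.start x.reverse = q
  | some (Sum.inr (q', o)), x => ∃ q'', (q'' = q' ∨ sib B q' o q'') ∧
      B.evalFrom B.start x.reverse = q''

theorem sound (B : DFA α (Fin k)) (y : List (α ⊕ Bool)) :
    ∀ s, (back B).evalFrom s y ∈ (back B).accept → Sem B s (erase y) := by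
  induction y with
  | nil =>
    intro s hs
    rw [DFA.evalFrom_nil] at hs
    have h1 : s = some (Sum.inl B.start) := hs
    rw [h1]
    rfl
  | cons c y ih =>
    intro s hs
    rw [DFA.evalFrom_cons] at hs
    have h1 := ih _ hs
    have hdead : ∀ x, ¬ Sem B none x := fun x h => h
    match s, c with
    | none, _ => exact absurd h1 (hdead _)
    | some (Sum.inl q), Sum.inr b => exact absurd h1 (hdead _)
    | some (Sum.inr (q', o)), Sum.inl a => exact absurd h1 (hdead _)
    | some (Sum.inl q), Sum.inl a =>
      have h2 : (back B).step (some (Sum.inl q)) (Sum.inl a) =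
        (lst (fun q' => B.step q' a = q) 0).map (fun q' => Sum.inr (q', some a)) := rfl
      rw [h2] at h1
      cases hl : lst (fun q' => B.step q' a = q) 0 with
      | none => rw [hl] at h1; exact absurd h1 (hdead _)
      | some r =>
        rw [hl] at h1
        obtain ⟨q'', h3, h4⟩ := h1
        have h5 : B.step r a = q := (lst_some hl).2
        have h6 : B.step q'' a = B.step r a := by
          rcases h3 with h3 | h3
          · rw [h3]
          · exact h3
        show B.evalFrom B.start (erase (Sum.inl a :: y)).reverse = q
        rw [erase_inl, List.reverse_cons, DFA.evalFrom_append_singleton, h4, h6, h5]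
    | some (Sum.inr (q', o)), Sum.inr true =>
      have h2 : (back B).step (some (Sum.inr (q', o))) (Sum.inr true) =
        (lst (sib B q' o) (q'.val + 1)).map (fun q'' => Sum.inr (q'', o)) := rfl
      rw [h2] at h1
      cases hl : lst (sib B q' o) (q'.val + 1) with
      | none => rw [hl] at h1; exact absurd h1 (hdead _)
      | some r =>
        rw [hl] at h1
        obtain ⟨q'', h3, h4⟩ := h1
        have h5 : sib B q' o r := (lst_some hl).2
        refine ⟨q'', Or.inr ?_, by rw [erase_inr]; exact h4⟩
        rcases h3 with h3 | h3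
        · rw [h3]; exact h5
        · cases o with
          | none => exact h3
          | some a => exact Eq.trans h3 h5
    | some (Sum.inr (q', o)), Sum.inr false =>
      refine ⟨q', Or.inl rfl, ?_⟩
      rw [erase_inr]
      exact h1

theorem reach (B : DFA α (Fin k)) (o : Option α) (P : Fin k → Prop)
    (hP : ∀ r, P r → sib B r o = P) (q' : Fin k) (hq : P q') :
    ∀ (n i : ℕ), i ≤ q'.val → q'.val - i ≤ n →
      ∃ t, (back B).evalFrom ((lst P i).map (fun q'' => Sum.inr (q'', o)))
        (List.replicate t (Sum.inr true)) = some (Sum.inr (q', o)) := by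
  intro n
  induction n with
  | zero =>
    intro i hi hn
    obtain ⟨r, h1, h2, h3, h4⟩ := lst_exists hi hq
    have h5 : r = q' := Fin.ext (by omega)
    refine ⟨0, ?_⟩
    rw [h1, h5]
    rfl
  | succ n ih =>
    intro i hi hn
    obtain ⟨r, h1, h2, h3, h4⟩ := lst_exists hi hq
    rcases Nat.eq_or_lt_of_le h4 with h5 | h5
    · have h6 : r = q' := Fin.ext h5
      refine ⟨0, ?_⟩
      rw [h1, h6]
      rfl
    · obtain ⟨t, ht⟩ := ih (r.val + 1) h5 (by omega)
      refine ⟨t + 1, ?_⟩
      rw [h1, List.replicate_succ, DFA.evalFrom_cons]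
      have h6 : (back B).step (Option.map (fun q'' => Sum.inr (q'', o)) (some r)) (Sum.inr true) =
        (lst (sib B r o) (r.val + 1)).map (fun q'' => Sum.inr (q'', o)) := rfl
      rw [h6, hP r h3]
      exact ht

theorem complete (B : DFA α (Fin k)) (x : List α) :
    ∃ y, erase y = x ∧ (back B).evalFrom
      (some (Sum.inl (B.evalFrom B.start x.reverse))) y = some (Sum.inl B.start) := by
  induction x with
  | nil => exact ⟨[], rfl, rfl⟩
  | cons a x ih =>
    obtain ⟨y, hy, he⟩ := ih
    obtain ⟨q', hq'⟩ : ∃ q', q' = B.evalFrom B.start x.reverse := ⟨_, rfl⟩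
    rw [← hq'] at he
    obtain ⟨t, ht⟩ := reach B (some a) (fun q'' => B.step q'' a = B.step q' a)
      (fun r hr => by
        funext q''
        show (B.step q'' a = B.step r a) = (B.step q'' a = B.step q' a)
        rw [hr]) q' rfl _ 0 (Nat.zero_le _) le_rfl
    refine ⟨Sum.inl a :: (List.replicate t (Sum.inr true) ++ Sum.inr false :: y), ?_, ?_⟩
    · rw [erase_inl, erase_append, erase_replicate, List.nil_append, erase_inr, hy]
    · rw [List.reverse_cons, DFA.evalFrom_append_singleton, ← hq', DFA.evalFrom_cons]
      have h6 : (back B).step (some (Sum.inl (B.step q' a))) (Sum.inl a) =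
        (lst (fun q'' => B.step q'' a = B.step q' a) 0).map
          (fun q'' => Sum.inr (q'', some a)) := rfl
      rw [h6, DFA.evalFrom_of_append, ht, DFA.evalFrom_cons]
      exact he

theorem back_accepts (B : DFA α (Fin k)) (x : List α) :
    (∃ y ∈ (back B).accepts, erase y = x) ↔ x.reverse ∈ B.accepts := by
  constructor
  · rintro ⟨y, hy, rfl⟩
    rw [DFA.mem_accepts] at hy ⊢
    have h1 := sound B y _ hy
    have h2 : (back B).start = (lst (fun q' => q' ∈ B.accept) 0).map
      (fun q' => Sum.inr (q', none)) := rfl
    rw [h2] at h1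
    cases hl : lst (fun q' => q' ∈ B.accept) 0 with
    | none => rw [hl] at h1; exact absurd h1 (fun h => h)
    | some r =>
      rw [hl] at h1
      obtain ⟨q'', h3, h4⟩ := h1
      have h5 : r ∈ B.accept := (lst_some hl).2
      have h6 : q'' ∈ B.accept := by
        rcases h3 with h3 | h3
        · rw [h3]; exact h5
        · exact h3
      show B.evalFrom B.start (erase y).reverse ∈ B.accept
      rw [h4]
      exact h6
  · intro hx
    rw [DFA.mem_accepts] at hx
    have hx' : B.evalFrom B.start x.reverse ∈ B.accept := hx
    obtain ⟨y, hy, he⟩ := complete B x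
    obtain ⟨q', hq'⟩ : ∃ q', q' = B.evalFrom B.start x.reverse := ⟨_, rfl⟩
    rw [← hq'] at he hx'
    obtain ⟨t, ht⟩ := reach B none (fun q'' => q'' ∈ B.accept) (fun r _ => rfl) q' hx' _ 0
      (Nat.zero_le _) le_rfl
    refine ⟨List.replicate t (Sum.inr true) ++ Sum.inr false :: y, ?_, ?_⟩
    · rw [DFA.mem_accepts]
      have h2 : (back B).eval (List.replicate t (Sum.inr true) ++ Sum.inr false :: y) =
          some (Sum.inl B.start) := by
        unfold DFA.eval
        rw [DFA.evalFrom_of_append]
        have h3 : (back B).start = (lst (fun q' => q' ∈ B.accept) 0).map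
          (fun q' => Sum.inr (q', none)) := rfl
        rw [h3, ht, DFA.evalFrom_cons]
        exact he
      rw [h2]
      rfl
    · rw [erase_append, erase_replicate, List.nil_append, erase_inr, hy]

end aux

/-- Emptiness of `P_{A,B}` and emptiness of the intersection of two deterministic automata are
equivalent by separate linear-size transformations of the two automata. -/
theorem result {α : Type} [Fintype α] {m k : ℕ} (A : DFA α (Fin m)) (B : DFA α (Fin k)) :
    ((∃ x, x ∈ A.accepts ∧ x.reverse ∈ B.accepts) ↔
      ∃ y, y ∈ (skip A).accepts ∧ y ∈ (back B).accepts) ∧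
    ((∃ x, x ∈ A.accepts ∧ x ∈ B.accepts) ↔
      ∃ y, y ∈ (skip A).accepts ∧ y.reverse ∈ (back B).accepts) ∧
    Fintype.card (BS α k) = (Fintype.card α + 2) * k + 1 := by
  refine ⟨⟨?_, ?_⟩, ⟨?_, ?_⟩, ?_⟩
  · rintro ⟨x, hA, hB⟩
    obtain ⟨y, hy, he⟩ := (back_accepts B x).2 hB
    exact ⟨y, (skip_accepts A y).2 (he ▸ hA), hy⟩
  · rintro ⟨y, hA, hB⟩
    exact ⟨erase y, (skip_accepts A y).1 hA, (back_accepts B _).1 ⟨y, hB, rfl⟩⟩
  · rintro ⟨x, hA, hB⟩
    obtain ⟨y, hy, he⟩ := (back_accepts B x.reverse).2 (by rwa [List.reverse_reverse])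
    refine ⟨y.reverse, (skip_accepts A _).2 ?_, by rwa [List.reverse_reverse]⟩
    rw [erase_reverse, he, List.reverse_reverse]
    exact hA
  · rintro ⟨y, hA, hB⟩
    refine ⟨erase y, (skip_accepts A y).1 hA, ?_⟩
    have h1 := (back_accepts B _).1 ⟨y.reverse, hB, rfl⟩
    rwa [erase_reverse, List.reverse_reverse] at h1
  · simp only [BS, Fintype.card_option, Fintype.card_sum, Fintype.card_prod, Fintype.card_fin]
    ring

end Pool.Agent.Lib.Reserve.MP_cde0c0_lc.IntersectionEquivalence
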