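import Mathlib

/-!
Reserve (replaced by ReversibleForm).

# Intersection emptiness of nondeterministic automata reduces to emptiness of `P_{A,B}`

`det A w` simulates the nondeterministic automaton `A`; its choices are made by the letters
`inr (w, true)` (next candidate) and `inr (w, false)` (select); the letters with the other value of `w`
belong to the other automaton and are ignored. The states are those of `A`, the candidates (a transition,
or a starting state of `A`) and a dead state. For a common word `x = a_1 ... a_r` of `A` and `B` the word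
`y` is built from `D^R a C y'`, where `C` are the choices of `A` after `a` and `D` those of the reverse of
`B`, which reads the word in the other direction.
-/

set_option autoImplicit false

namespace Pool.Agent.Lib.Reserve.MP_cde0c0_lc.NondeterministicAutomata

open Classical in
/-- the least `q` with `i ≤ q` and `P q` -/
noncomputable def lst {k : ℕ} (P : Fin k → Prop) (i : ℕ) : Option {q : Fin k // P q} :=
  if h : (Finset.univ.filter (fun q : Fin k => i ≤ q.val ∧ P q)).Nonempty then
    some ⟨Finset.min' _ h, (Finset.mem_filter.1 (Finset.min'_mem _ h)).2.2⟩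
  else none

/-- the candidates: the starting states, or the successors of a state under a letter -/
def cls {α : Type} {k : ℕ} (A : NFA α (Fin k)) : Option (Fin k × α) → Fin k → Prop
  | none => fun q => q ∈ A.start
  | some (p, a) => fun q => q ∈ A.step p a

/-- the states of `det A w`: the dead state, the states of `A`, and the candidates -/
abbrev NS {α : Type} {k : ℕ} (A : NFA α (Fin k)) : Type :=
  Option (Fin k ⊕ (Σ c : Option (Fin k × α), {q : Fin k // cls A c q}))

/-- the choice: `true` is the next candidate, `false` selects the present one -/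
noncomputable def cstep {α : Type} {k : ℕ} (A : NFA α (Fin k)) : NS A → Bool → NS A
  | some (Sum.inr ⟨c, q⟩), true =>
      (lst (cls A c) (q.1.val + 1)).map (fun q' => Sum.inr ⟨c, q'⟩)
  | some (Sum.inr ⟨_, q⟩), false => some (Sum.inl q.1)
  | _, _ => none

/-- a letter of `A`: the first candidate -/
noncomputable def astep {α : Type} {k : ℕ} (A : NFA α (Fin k)) : NS A → α → NS A
  | some (Sum.inl p), a =>
      (lst (cls A (some (p, a))) 0).map (fun q' => Sum.inr ⟨some (p, a), q'⟩)
  | _, _ => none

/-- the deterministic simulation of `A` with own choice letters -/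
noncomputable def det {α : Type} {k : ℕ} (A : NFA α (Fin k)) (w : Bool) :
    DFA (α ⊕ (Bool × Bool)) (NS A) where
  step := fun s c => match c with
    | Sum.inl a => astep A s a
    | Sum.inr (w', b) => if w' = w then cstep A s b else s
  start := (lst (cls A none) 0).map (fun q => Sum.inr ⟨none, q⟩)
  accept := {s | ∃ p ∈ A.accept, s = some (Sum.inl p)}

section aux

variable {α : Type} {k m : ℕ}

theorem lst_exists {P : Fin k → Prop} {i : ℕ} {q : Fin k} (hi : i ≤ q.val) (hq : P q) :
    ∃ r : {q : Fin k // P q}, lst P i = some r ∧ i ≤ r.1.val ∧ r.1.val ≤ q.val := by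
  classical
  have hm : q ∈ Finset.univ.filter (fun q : Fin k => i ≤ q.val ∧ P q) :=
    Finset.mem_filter.2 ⟨Finset.mem_univ _, hi, hq⟩
  have h : (Finset.univ.filter (fun q : Fin k => i ≤ q.val ∧ P q)).Nonempty := ⟨q, hm⟩
  refine ⟨⟨Finset.min' _ h, (Finset.mem_filter.1 (Finset.min'_mem _ h)).2.2⟩, ?_, ?_, ?_⟩
  · unfold lst
    rw [dif_pos h]
  · exact (Finset.mem_filter.1 (Finset.min'_mem _ h)).2.1
  · exact Finset.min'_le _ _ hm

/-- the word without the choice letters -/
def erase (y : List (α ⊕ (Bool × Bool))) : List α := y.filterMap Sum.getLeft?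

theorem erase_inl (a : α) (y : List (α ⊕ (Bool × Bool))) :
    erase (Sum.inl a :: y) = a :: erase y := rfl

theorem erase_inr (b : Bool × Bool) (y : List (α ⊕ (Bool × Bool))) :
    erase (Sum.inr b :: y) = erase y := rfl

theorem erase_append (y z : List (α ⊕ (Bool × Bool))) : erase (y ++ z) = erase y ++ erase z :=
  List.filterMap_append

theorem erase_reverse (y : List (α ⊕ (Bool × Bool))) : erase y.reverse = (erase y).reverse :=
  List.filterMap_reverse

/-- the word consists of choice letters of `w` -/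
def CW (w : Bool) (u : List (α ⊕ (Bool × Bool))) : Prop := ∀ l ∈ u, ∃ b, l = Sum.inr (w, b)

theorem CW.rev {w : Bool} {u : List (α ⊕ (Bool × Bool))} (h : CW w u) : CW w u.reverse :=
  fun l hl => h l (List.mem_reverse.1 hl)

theorem CW.erase {w : Bool} {u : List (α ⊕ (Bool × Bool))} (h : CW w u) :
    NondeterministicAutomata.erase u = [] := by
  induction u with
  | nil => rfl
  | cons c u ih =>
    obtain ⟨b, hb⟩ := h c List.mem_cons_self
    rw [hb, erase_inr]
    exact ih (fun l hl => h l (List.mem_cons_of_mem _ hl))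

theorem CW.skip {w w' : Bool} (hw : w ≠ w') {u : List (α ⊕ (Bool × Bool))} (h : CW w u)
    (A : NFA α (Fin k)) (s : NS A) : (det A w').evalFrom s u = s := by
  induction u with
  | nil => rfl
  | cons c u ih =>
    obtain ⟨b, hb⟩ := h c List.mem_cons_self
    rw [hb, DFA.evalFrom_cons]
    have h1 : (det A w').step s (Sum.inr (w, b)) = if w = w' then cstep A s b else s := rfl
    rw [h1, if_neg hw]
    exact ih (fun l hl => h l (List.mem_cons_of_mem _ hl))

theorem acc_cons (A : NFA α (Fin k)) (p : Fin k) (a : α) (x : List α) :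
    a :: x ∈ A.acceptsFrom {p} ↔ ∃ q ∈ A.step p a, x ∈ A.acceptsFrom {q} := by
  rw [NFA.cons_mem_acceptsFrom, NFA.stepSet_singleton, NFA.mem_acceptsFrom]
  constructor
  · rintro ⟨s, hs, h⟩
    obtain ⟨t, ht, h2⟩ := NFA.mem_evalFrom_iff_exists.1 h
    exact ⟨t, ht, NFA.mem_acceptsFrom.2 ⟨s, hs, h2⟩⟩
  · rintro ⟨q, hq, h⟩
    obtain ⟨s, hs, h2⟩ := NFA.mem_acceptsFrom.1 h
    exact ⟨s, hs, NFA.mem_evalFrom_iff_exists.2 ⟨q, hq, h2⟩⟩

theorem acc_start (A : NFA α (Fin k)) (x : List α) :
    x ∈ A.accepts ↔ ∃ p ∈ A.start, x ∈ A.acceptsFrom {p} := by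
  rw [NFA.mem_accepts]
  constructor
  · rintro ⟨s, hs, h⟩
    obtain ⟨t, ht, h2⟩ := NFA.mem_evalFrom_iff_exists.1 h
    exact ⟨t, ht, NFA.mem_acceptsFrom.2 ⟨s, hs, h2⟩⟩
  · rintro ⟨q, hq, h⟩
    obtain ⟨s, hs, h2⟩ := NFA.mem_acceptsFrom.1 h
    exact ⟨s, hs, NFA.mem_evalFrom_iff_exists.2 ⟨q, hq, h2⟩⟩

/-- the meaning of the states -/
def Sem (A : NFA α (Fin k)) : NS A → List α → Prop
  | none, _ => False
  | some (Sum.inl p), x => x ∈ A.acceptsFrom {p}
  | some (Sum.inr ⟨c, _⟩), x => ∃ q, cls A c q ∧ x ∈ A.acceptsFrom {q}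

theorem sound (A : NFA α (Fin k)) (w : Bool) (y : List (α ⊕ (Bool × Bool))) :
    ∀ s, (det A w).evalFrom s y ∈ (det A w).accept → Sem A s (erase y) := by
  induction y with
  | nil =>
    intro s hs
    obtain ⟨p, hp, hs'⟩ := hs
    have h1 : s = some (Sum.inl p) := hs'
    rw [h1]
    exact (NFA.nil_mem_acceptsFrom A).2 ⟨p, rfl, hp⟩
  | cons c y ih =>
    intro s hs
    rw [DFA.evalFrom_cons] at hs
    have h1 := ih _ hs
    rcases c with a | ⟨w', b⟩
    · have h2 : (det A w).step s (Sum.inl a) = astep A s a := rfl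
      rw [h2] at h1
      rw [erase_inl]
      match s with
      | none => exact h1.elim
      | some (Sum.inr ⟨_, _⟩) => exact h1.elim
      | some (Sum.inl p) =>
        have h3 : astep A (some (Sum.inl p)) a =
          (lst (cls A (some (p, a))) 0).map (fun q' => Sum.inr ⟨some (p, a), q'⟩) := rfl
        rw [h3] at h1
        cases hl : lst (cls A (some (p, a))) 0 with
        | none => rw [hl] at h1; exact h1.elim
        | some r =>
          rw [hl] at h1
          obtain ⟨q, hq, h4⟩ := h1
          exact (acc_cons A p a _).2 ⟨q, hq, h4⟩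
    · have h2 : (det A w).step s (Sum.inr (w', b)) = if w' = w then cstep A s b else s := rfl
      rw [h2] at h1
      rw [erase_inr]
      by_cases hw : w' = w
      · rw [if_pos hw] at h1
        match s, b with
        | none, _ => exact h1.elim
        | some (Sum.inl _), _ => exact h1.elim
        | some (Sum.inr ⟨c, q⟩), true =>
          have h3 : cstep A (some (Sum.inr ⟨c, q⟩)) true =
            (lst (cls A c) (q.1.val + 1)).map (fun q' => Sum.inr ⟨c, q'⟩) := rfl
          rw [h3] at h1
          cases hl : lst (cls A c) (q.1.val + 1) with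
          | none => rw [hl] at h1; exact h1.elim
          | some r =>
            rw [hl] at h1
            exact h1
        | some (Sum.inr ⟨c, q⟩), false => exact ⟨q.1, q.2, h1⟩
      · rw [if_neg hw] at h1
        exact h1

theorem sound_accepts (A : NFA α (Fin k)) (w : Bool) (y : List (α ⊕ (Bool × Bool)))
    (h : y ∈ (det A w).accepts) : erase y ∈ A.accepts := by
  have h1 := sound A w y _ h
  have h2 : (det A w).start = (lst (cls A none) 0).map (fun q => Sum.inr ⟨none, q⟩) := rfl
  rw [h2] at h1
  cases hl : lst (cls A none) 0 with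
  | none => rw [hl] at h1; exact h1.elim
  | some r =>
    rw [hl] at h1
    obtain ⟨q, hq, h4⟩ := h1
    exact (acc_start A _).2 ⟨q, hq, h4⟩

theorem reach (A : NFA α (Fin k)) (w : Bool) (c : Option (Fin k × α)) (q : Fin k)
    (hq : cls A c q) : ∀ (n i : ℕ), i ≤ q.val → q.val - i ≤ n →
      ∃ u, CW w u ∧ (det A w).evalFrom ((lst (cls A c) i).map (fun q' => Sum.inr ⟨c, q'⟩)) u =
        some (Sum.inl q) := by
  intro n
  induction n with
  | zero =>
    intro i hi hn
    obtain ⟨r, h1, h2, h3⟩ := lst_exists hi hq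
    have h5 : r.1 = q := Fin.ext (by omega)
    refine ⟨[Sum.inr (w, false)], ?_, ?_⟩
    · intro l hl
      exact ⟨false, List.mem_singleton.1 hl⟩
    · rw [h1, DFA.evalFrom_singleton]
      have h6 : (det A w).step (Option.map (fun q' => Sum.inr ⟨c, q'⟩) (some r))
        (Sum.inr (w, false)) = if w = w then some (Sum.inl r.1)
          else (Option.map (fun q' => Sum.inr ⟨c, q'⟩) (some r)) := rfl
      rw [h6, if_pos rfl, h5]
  | succ n ih =>
    intro i hi hn
    obtain ⟨r, h1, h2, h3⟩ := lst_exists hi hq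
    rcases Nat.eq_or_lt_of_le h3 with h5 | h5
    · have h6 : r.1 = q := Fin.ext h5
      refine ⟨[Sum.inr (w, false)], ?_, ?_⟩
      · intro l hl
        exact ⟨false, List.mem_singleton.1 hl⟩
      · rw [h1, DFA.evalFrom_singleton]
        have h7 : (det A w).step (Option.map (fun q' => Sum.inr ⟨c, q'⟩) (some r))
          (Sum.inr (w, false)) = if w = w then some (Sum.inl r.1)
            else (Option.map (fun q' => Sum.inr ⟨c, q'⟩) (some r)) := rfl
        rw [h7, if_pos rfl, h6]
    · obtain ⟨u, hu, he⟩ := ih (r.1.val + 1) h5 (by omega)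
      refine ⟨Sum.inr (w, true) :: u, ?_, ?_⟩
      · intro l hl
        rcases List.mem_cons.1 hl with hl | hl
        · exact ⟨true, hl⟩
        · exact hu l hl
      · rw [h1, DFA.evalFrom_cons]
        have h7 : (det A w).step (Option.map (fun q' => Sum.inr ⟨c, q'⟩) (some r))
          (Sum.inr (w, true)) = if w = w then
            (lst (cls A c) (r.1.val + 1)).map (fun q' => Sum.inr ⟨c, q'⟩)
            else (Option.map (fun q' => Sum.inr ⟨c, q'⟩) (some r)) := rfl
        rw [h7, if_pos rfl]
        exact he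

theorem joint (A : NFA α (Fin m)) (B : NFA α (Fin k)) (x : List α) : ∀ (p : Fin m) (q : Fin k),
    x ∈ A.acceptsFrom {p} → q ∈ B.eval x.reverse → ∃ y, erase y = x ∧
      (det A true).evalFrom (some (Sum.inl p)) y ∈ (det A true).accept ∧
      (det B false).eval y.reverse = some (Sum.inl q) := by
  induction x with
  | nil =>
    intro p q hp hq
    have hq' : cls B none q := hq
    obtain ⟨D, hD, he⟩ := reach B false none q hq' _ 0 (Nat.zero_le _) le_rfl
    refine ⟨D.reverse, hD.rev.erase, ?_, ?_⟩
    · rw [hD.rev.skip (by decide)]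
      obtain ⟨s, hs, hs'⟩ := (NFA.nil_mem_acceptsFrom A).1 hp
      have hsp : s = p := hs
      rw [hsp] at hs'
      exact ⟨p, hs', rfl⟩
    · rw [List.reverse_reverse]
      exact he
  | cons a x ih =>
    intro p q hp hq
    obtain ⟨p', hp', hx⟩ := (acc_cons A p a x).1 hp
    rw [List.reverse_cons, NFA.eval_append_singleton, NFA.mem_stepSet] at hq
    obtain ⟨q', hq', hqs⟩ := hq
    obtain ⟨y, hy, hyA, hyB⟩ := ih p' q' hx hq'
    obtain ⟨C, hC, heC⟩ := reach A true (some (p, a)) p' hp' _ 0 (Nat.zero_le _) le_rfl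
    obtain ⟨D, hD, heD⟩ := reach B false (some (q', a)) q hqs _ 0 (Nat.zero_le _) le_rfl
    refine ⟨D.reverse ++ Sum.inl a :: (C ++ y), ?_, ?_, ?_⟩
    · rw [erase_append, hD.rev.erase, List.nil_append, erase_inl, erase_append, hC.erase,
        List.nil_append, hy]
    · rw [DFA.evalFrom_of_append, hD.rev.skip (by decide), DFA.evalFrom_cons,
        DFA.evalFrom_of_append]
      have h1 : (det A true).step (some (Sum.inl p)) (Sum.inl a) =
        (lst (cls A (some (p, a))) 0).map (fun q' => Sum.inr ⟨some (p, a), q'⟩) := rfl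
      rw [h1, heC]
      exact hyA
    · have h1 : (D.reverse ++ Sum.inl a :: (C ++ y)).reverse =
          y.reverse ++ (C.reverse ++ (Sum.inl a :: D)) := by simp
      rw [h1]
      have h2 : (det B false).evalFrom (det B false).start y.reverse = some (Sum.inl q') := hyB
      unfold DFA.eval
      rw [DFA.evalFrom_of_append, h2, DFA.evalFrom_of_append, hC.rev.skip (by decide),
        DFA.evalFrom_cons]
      exact heD

theorem main (A : NFA α (Fin m)) (B : NFA α (Fin k)) :
    (∃ x, x ∈ A.accepts ∧ x.reverse ∈ B.accepts) ↔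
      ∃ y, y ∈ (det A true).accepts ∧ y.reverse ∈ (det B false).accepts := by
  constructor
  · rintro ⟨x, hA, hB⟩
    obtain ⟨p, hp, hx⟩ := (acc_start A x).1 hA
    obtain ⟨q, hq, hq'⟩ := NFA.mem_accepts.1 hB
    obtain ⟨y, hy, hyA, hyB⟩ := joint A B x p q hx hq'
    obtain ⟨C, hC, heC⟩ := reach A true none p hp _ 0 (Nat.zero_le _) le_rfl
    refine ⟨C ++ y, ?_, ?_⟩
    · show (det A true).evalFrom (det A true).start (C ++ y) ∈ (det A true).accept
      rw [DFA.evalFrom_of_append]
      have h1 : (det A true).start = (lst (cls A none) 0).map (fun q => Sum.inr ⟨none, q⟩) := rfl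
      rw [h1, heC]
      exact hyA
    · show (det B false).evalFrom (det B false).start (C ++ y).reverse ∈ (det B false).accept
      have h2 : (det B false).evalFrom (det B false).start y.reverse = some (Sum.inl q) := hyB
      rw [List.reverse_append, DFA.evalFrom_of_append, h2, hC.rev.skip (by decide)]
      exact ⟨q, hq, rfl⟩
  · rintro ⟨y, hA, hB⟩
    refine ⟨erase y, sound_accepts A true y hA, ?_⟩
    rw [← erase_reverse]
    exact sound_accepts B false _ hB

/-- the candidates are the starting states and the transitions -/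
def candEquiv (A : NFA α (Fin k)) : (Σ c : Option (Fin k × α), {q : Fin k // cls A c q}) ≃
    ({q : Fin k // q ∈ A.start} ⊕ {e : (Fin k × α) × Fin k // e.2 ∈ A.step e.1.1 e.1.2}) where
  toFun := fun s => match s with
    | ⟨none, q⟩ => Sum.inl ⟨q.1, q.2⟩
    | ⟨some (p, a), q⟩ => Sum.inr ⟨((p, a), q.1), q.2⟩
  invFun := fun s => match s with
    | Sum.inl q => ⟨none, ⟨q.1, q.2⟩⟩
    | Sum.inr e => ⟨some (e.1.1.1, e.1.1.2), ⟨e.1.2, e.2⟩⟩
  left_inv := by
    rintro ⟨(_ | ⟨p, a⟩), q⟩ <;> rfl
  right_inv := by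
    rintro (q | e) <;> rfl

theorem card_NS [Finite α] (A : NFA α (Fin k)) : Nat.card (NS A) =
    k + (Nat.card {q : Fin k // q ∈ A.start} +
      Nat.card {e : (Fin k × α) × Fin k // e.2 ∈ A.step e.1.1 e.1.2}) + 1 := by
  have h1 : Finite (Σ c : Option (Fin k × α), {q : Fin k // cls A c q}) :=
    Finite.of_equiv _ (candEquiv A).symm
  rw [NS, Finite.card_option, Nat.card_sum, Nat.card_congr (candEquiv A), Nat.card_sum,
    Nat.card_eq_fintype_card, Fintype.card_fin]

end aux

/-- Intersection emptiness of two nondeterministic automata, and emptiness of `P_{A,B}` for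
nondeterministic `A`, `B`, reduce to emptiness of `P_{A',B'}` for deterministic `A'`, `B'`. -/
theorem result {α : Type} [Fintype α] {m k : ℕ} (A : NFA α (Fin m)) (B : NFA α (Fin k)) :
    ((∃ x, x ∈ A.accepts ∧ x ∈ B.accepts) ↔
      ∃ y, y ∈ (det A true).accepts ∧ y.reverse ∈ (det B.reverse false).accepts) ∧
    ((∃ x, x ∈ A.accepts ∧ x.reverse ∈ B.accepts) ↔
      ∃ y, y ∈ (det A true).accepts ∧ y.reverse ∈ (det B false).accepts) ∧
    Nat.card (NS A) = m + (Nat.card {q : Fin m // q ∈ A.start} +
      Nat.card {e : (Fin m × α) × Fin m // e.2 ∈ A.step e.1.1 e.1.2}) + 1 ∧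
    Nat.card (NS B.reverse) = k + (Nat.card {q : Fin k // q ∈ B.accept} +
      Nat.card {e : (Fin k × α) × Fin k // e.2 ∈ B.step e.1.1 e.1.2}) + 1 := by
  refine ⟨?_, main A B, card_NS A, ?_⟩
  · rw [← main A B.reverse]
    constructor
    · rintro ⟨x, hA, hB⟩
      exact ⟨x, hA, NFA.mem_accepts_reverse.2 (by rwa [List.reverse_reverse])⟩
    · rintro ⟨x, hA, hB⟩
      refine ⟨x, hA, ?_⟩
      have := NFA.mem_accepts_reverse.1 hB
      rwa [List.reverse_reverse] at this
  · rw [card_NS]
    have h1 : Nat.card {e : (Fin k × α) × Fin k // e.2 ∈ B.reverse.step e.1.1 e.1.2} =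
        Nat.card {e : (Fin k × α) × Fin k // e.2 ∈ B.step e.1.1 e.1.2} := by
      refine Nat.card_congr ⟨fun e => ⟨((e.1.2, e.1.1.2), e.1.1.1), e.2⟩,
        fun e => ⟨((e.1.2, e.1.1.2), e.1.1.1), e.2⟩, fun e => rfl, fun e => rfl⟩
    rw [h1]
    rfl

end Pool.Agent.Lib.Reserve.MP_cde0c0_lc.NondeterministicAutomata
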