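import Mathlib

/-!
# Orthogonal vectors reduce to the emptiness of `P_{A,B}`

Letters: `inl b` are bits, `inr true` is `next`, `inr false` is `select`. The automaton `gad C` accepts the
words `next^i select w select next^r` with `i < n`, `w` a word of `d` bits and `C i k (w k)` for all
`k < d`. For `A` take `C i k b` as `b = true or U i k = false`, for `B`, which reads the reversed word,
`C j k b` as `b = false or V j (d - 1 - k) = false`. The bit `w k` certifies that `U i k` or `V j k` is
`false`.
-/

set_option autoImplicit false

namespace Pool.Agent.Lib.Reserve.MP_cde0c0_lc.OrthogonalVectors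

/-- the states: `some (some (inl i))` points at the `i`-th vector, `some (some (inr (i, k)))` has read `k`
bits and compares with the `i`-th vector, `some none` is the accepting state, `none` the dead state -/
abbrev St (n d : ℕ) : Type := Option (Option (Fin n ⊕ (Fin n × Fin (d + 1))))

/-- the pointer at the vector `i`, dead if `n ≤ i` -/
def ptr (n d i : ℕ) : St n d := if h : i < n then some (some (Sum.inl ⟨i, h⟩)) else none

/-- one step of the automaton for the condition `C` -/
def gstep {n d : ℕ} (C : Fin n → Fin d → Bool → Bool) : St n d → Bool ⊕ Bool → St n d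
  | some (some (Sum.inl i)), Sum.inr true => ptr n d (i.val + 1)
  | some (some (Sum.inl i)), Sum.inr false => some (some (Sum.inr (i, 0)))
  | some (some (Sum.inr (i, k))), Sum.inl b =>
      if h : k.val < d then
        if C i ⟨k.val, h⟩ b = true then some (some (Sum.inr (i, ⟨k.val + 1, Nat.succ_lt_succ h⟩)))
        else none
      else none
  | some (some (Sum.inr (_, k))), Sum.inr false => if k.val = d then some none else none
  | some none, Sum.inr true => some none
  | _, _ => none

/-- the automaton for the condition `C` -/
def gad {n d : ℕ} (C : Fin n → Fin d → Bool → Bool) : DFA (Bool ⊕ Bool) (St n d) where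
  step := gstep C
  start := ptr n d 0
  accept := {some none}

/-- the automaton of the vectors `U` -/
def autA {n d : ℕ} (U : Fin n → Fin d → Bool) : DFA (Bool ⊕ Bool) (St n d) :=
  gad (fun i k b => b || !U i k)

/-- the automaton of the vectors `V` -/
def autB {n d : ℕ} (V : Fin n → Fin d → Bool) : DFA (Bool ⊕ Bool) (St n d) :=
  gad (fun j k b => !b || !V j k.rev)

section aux

variable {n d : ℕ} (C : Fin n → Fin d → Bool → Bool)

theorem eval_dead (x : List (Bool ⊕ Bool)) : (gad C).evalFrom none x = none := by
  induction x with
  | nil => rfl
  | cons c x ih =>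
    rw [DFA.evalFrom_cons]
    exact ih

theorem fin_sound (x : List (Bool ⊕ Bool)) (h : (gad C).evalFrom (some none) x = some none) :
    x = List.replicate x.length (Sum.inr true) := by
  induction x with
  | nil => rfl
  | cons c x ih =>
    rw [DFA.evalFrom_cons] at h
    rcases c with b | b
    · have h1 : (gad C).step (some none) (Sum.inl b) = none := rfl
      rw [h1, eval_dead] at h
      exact absurd h (by simp)
    · cases b
      · have h1 : (gad C).step (some none) (Sum.inr false) = none := rfl
        rw [h1, eval_dead] at h
        exact absurd h (by simp)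
      · have h1 : (gad C).step (some none) (Sum.inr true) = some none := rfl
        rw [h1] at h
        rw [List.length_cons, List.replicate_succ, ← ih h]

theorem mat_sound (i : Fin n) (x : List (Bool ⊕ Bool)) : ∀ k : Fin (d + 1),
    (gad C).evalFrom (some (some (Sum.inr (i, k)))) x = some none →
    ∃ (w : List Bool) (r : ℕ), x = w.map Sum.inl ++ Sum.inr false :: List.replicate r (Sum.inr true) ∧
      k.val + w.length = d ∧
      ∀ (j : Fin d), k.val ≤ j.val → C i j (w.getD (j.val - k.val) false) = true := by
  induction x with
  | nil =>
    intro k h
    rw [DFA.evalFrom_nil] at h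
    exact absurd h (by simp)
  | cons c x ih =>
    intro k h
    rw [DFA.evalFrom_cons] at h
    rcases c with b | b
    · have h1 : (gad C).step (some (some (Sum.inr (i, k)))) (Sum.inl b) =
        if h : k.val < d then
          if C i ⟨k.val, h⟩ b = true then
            some (some (Sum.inr (i, ⟨k.val + 1, Nat.succ_lt_succ h⟩)))
          else none
        else none := rfl
      rw [h1] at h
      by_cases hk : k.val < d
      · rw [dif_pos hk] at h
        by_cases hC : C i ⟨k.val, hk⟩ b = true
        · rw [if_pos hC] at h
          obtain ⟨w, r, hx, hl, hw⟩ := ih _ h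
          refine ⟨b :: w, r, ?_, ?_, ?_⟩
          · rw [hx]; rfl
          · rw [List.length_cons]
            simp only at hl
            omega
          · intro j hj
            rcases Nat.eq_or_lt_of_le hj with h2 | h2
            · have h3 : j = ⟨k.val, hk⟩ := Fin.ext h2.symm
              rw [h3]
              simpa using hC
            · have h3 := hw j h2
              have h4 : j.val - k.val = (j.val - (k.val + 1)) + 1 := by omega
              rw [h4, List.getD_cons_succ]
              exact h3
        · rw [if_neg hC, eval_dead] at h
          exact absurd h (by simp)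
      · rw [dif_neg hk, eval_dead] at h
        exact absurd h (by simp)
    · cases b
      · have h1 : (gad C).step (some (some (Sum.inr (i, k)))) (Sum.inr false) =
          if k.val = d then some none else none := rfl
        rw [h1] at h
        by_cases hk : k.val = d
        · rw [if_pos hk] at h
          refine ⟨[], x.length, ?_, by simpa using hk, ?_⟩
          · rw [List.map_nil, List.nil_append, ← fin_sound C x h]
          · intro j hj
            exact absurd j.isLt (by omega)
        · rw [if_neg hk, eval_dead] at h
          exact absurd h (by simp)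
      · have h1 : (gad C).step (some (some (Sum.inr (i, k)))) (Sum.inr true) = none := rfl
        rw [h1, eval_dead] at h
        exact absurd h (by simp)

theorem ptr_sound (x : List (Bool ⊕ Bool)) : ∀ i : ℕ,
    (gad C).evalFrom (ptr n d i) x = some none →
    ∃ (i' : Fin n) (t r : ℕ) (w : List Bool),
      x = List.replicate t (Sum.inr true) ++ Sum.inr false ::
        (w.map Sum.inl ++ Sum.inr false :: List.replicate r (Sum.inr true)) ∧
      w.length = d ∧ ∀ (j : Fin d), C i' j (w.getD j.val false) = true := by
  induction x with
  | nil =>
    intro i h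
    rw [DFA.evalFrom_nil] at h
    unfold ptr at h
    by_cases hi : i < n
    · rw [dif_pos hi] at h
      exact absurd h (by simp)
    · rw [dif_neg hi] at h
      exact absurd h (by simp)
  | cons c x ih =>
    intro i h
    by_cases hi : i < n
    · have hp : ptr n d i = some (some (Sum.inl ⟨i, hi⟩)) := by unfold ptr; rw [dif_pos hi]
      rw [hp, DFA.evalFrom_cons] at h
      rcases c with b | b
      · have h1 : (gad C).step (some (some (Sum.inl ⟨i, hi⟩))) (Sum.inl b) = none := rfl
        rw [h1, eval_dead] at h
        exact absurd h (by simp)
      · cases b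
        · have h1 : (gad C).step (some (some (Sum.inl ⟨i, hi⟩))) (Sum.inr false) =
            some (some (Sum.inr (⟨i, hi⟩, 0))) := rfl
          rw [h1] at h
          obtain ⟨w, r, hx, hl, hw⟩ := mat_sound C ⟨i, hi⟩ x 0 h
          refine ⟨⟨i, hi⟩, 0, r, w, ?_, by simpa using hl, ?_⟩
          · rw [hx]; rfl
          · intro j
            simpa using hw j (Nat.zero_le _)
        · have h1 : (gad C).step (some (some (Sum.inl ⟨i, hi⟩))) (Sum.inr true) =
            ptr n d (i + 1) := rfl
          rw [h1] at h
          obtain ⟨i', t, r, w, hx, hl, hw⟩ := ih _ h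
          refine ⟨i', t + 1, r, w, ?_, hl, hw⟩
          rw [hx]; rfl
    · have hp : ptr n d i = none := by unfold ptr; rw [dif_neg hi]
      rw [hp, eval_dead] at h
      exact absurd h (by simp)

theorem gad_sound (x : List (Bool ⊕ Bool)) (h : x ∈ (gad C).accepts) :
    ∃ (i : Fin n) (w : List Bool), x.filterMap Sum.getLeft? = w ∧
      w.length = d ∧ ∀ (j : Fin d), C i j (w.getD j.val false) = true := by
  have h1 : (gad C).evalFrom (ptr n d 0) x = some none := h
  obtain ⟨i, t, r, w, hx, hl, hw⟩ := ptr_sound C x 0 h1
  refine ⟨i, w, ?_, hl, hw⟩
  have hrep : ∀ s : ℕ, (List.replicate s (Sum.inr true : Bool ⊕ Bool)).filterMap Sum.getLeft? =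
      [] := by
    intro s
    induction s with
    | zero => rfl
    | succ s ih => rw [List.replicate_succ, List.filterMap_cons]; exact ih
  have hmap : ∀ v : List Bool, (v.map (Sum.inl : Bool → Bool ⊕ Bool)).filterMap Sum.getLeft? =
      v := by
    intro v
    induction v with
    | nil => rfl
    | cons b v ih =>
      rw [List.map_cons, List.filterMap_cons]
      show b :: _ = b :: v
      rw [ih]
  have hsel : ∀ v : List (Bool ⊕ Bool), (Sum.inr false :: v).filterMap Sum.getLeft? =
      v.filterMap Sum.getLeft? := fun v => rfl
  rw [hx, List.filterMap_append, hrep, hsel, List.filterMap_append, hmap, hsel, hrep]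
  simp

theorem fin_complete (r : ℕ) :
    (gad C).evalFrom (some none) (List.replicate r (Sum.inr true)) = some none := by
  induction r with
  | zero => rfl
  | succ r ih =>
    rw [List.replicate_succ, DFA.evalFrom_cons]
    exact ih

theorem mat_complete (i : Fin n) (r : ℕ) (w : List Bool) : ∀ k : Fin (d + 1),
    k.val + w.length = d →
    (∀ (j : Fin d), k.val ≤ j.val → C i j (w.getD (j.val - k.val) false) = true) →
    (gad C).evalFrom (some (some (Sum.inr (i, k))))
      (w.map Sum.inl ++ Sum.inr false :: List.replicate r (Sum.inr true)) = some none := by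
  induction w with
  | nil =>
    intro k hk _
    have h1 : (gad C).step (some (some (Sum.inr (i, k)))) (Sum.inr false) =
      if k.val = d then some none else none := rfl
    rw [List.map_nil, List.nil_append, DFA.evalFrom_cons, h1, if_pos (by simpa using hk)]
    exact fin_complete C r
  | cons b w ih =>
    intro k hk hw
    rw [List.length_cons] at hk
    have hkd : k.val < d := by omega
    have h1 : (gad C).step (some (some (Sum.inr (i, k)))) (Sum.inl b) =
      if h : k.val < d then
        if C i ⟨k.val, h⟩ b = true then
          some (some (Sum.inr (i, ⟨k.val + 1, Nat.succ_lt_succ h⟩)))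
        else none
      else none := rfl
    have hC : C i ⟨k.val, hkd⟩ b = true := by simpa using hw ⟨k.val, hkd⟩ le_rfl
    rw [List.map_cons, List.cons_append, DFA.evalFrom_cons, h1, dif_pos hkd, if_pos hC]
    apply ih
    · simp only
      omega
    · intro j hj
      have h2 := hw j (by simp only at hj; omega)
      simp only at hj
      have h4 : j.val - k.val = (j.val - (k.val + 1)) + 1 := by omega
      rw [h4, List.getD_cons_succ] at h2
      exact h2

theorem ptr_complete (i : ℕ) (hi : i < n) (x : List (Bool ⊕ Bool)) : ∀ t j : ℕ, j + t = i →
    (gad C).evalFrom (ptr n d j) (List.replicate t (Sum.inr true) ++ Sum.inr false :: x) =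
      (gad C).evalFrom (some (some (Sum.inr (⟨i, hi⟩, 0)))) x := by
  intro t
  induction t with
  | zero =>
    intro j hj
    have hp : ptr n d j = some (some (Sum.inl ⟨i, hi⟩)) := by
      unfold ptr
      rw [dif_pos (by omega)]
      congr 3
      exact Fin.ext (by simpa using hj)
    rw [List.replicate_zero, List.nil_append, DFA.evalFrom_cons, hp]
    rfl
  | succ t ih =>
    intro j hj
    have hjn : j < n := by omega
    have hp : ptr n d j = some (some (Sum.inl ⟨j, hjn⟩)) := by
      unfold ptr
      rw [dif_pos hjn]
    have h1 : (gad C).step (some (some (Sum.inl ⟨j, hjn⟩))) (Sum.inr true) =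
      ptr n d (j + 1) := rfl
    rw [List.replicate_succ, List.cons_append, DFA.evalFrom_cons, hp, h1]
    exact ih (j + 1) (by omega)

theorem gad_complete (i : Fin n) (r : ℕ) (w : List Bool) (hl : w.length = d)
    (hw : ∀ (j : Fin d), C i j (w.getD j.val false) = true) :
    List.replicate i.val (Sum.inr true) ++ Sum.inr false ::
      (w.map Sum.inl ++ Sum.inr false :: List.replicate r (Sum.inr true)) ∈ (gad C).accepts := by
  have h1 := ptr_complete C i.val i.isLt
    (w.map Sum.inl ++ Sum.inr false :: List.replicate r (Sum.inr true)) i.val 0 (by omega)
  have h2 := mat_complete C ⟨i.val, i.isLt⟩ r w 0 (by simpa using hl)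
    (fun j _ => by simpa using hw j)
  show (gad C).evalFrom (ptr n d 0) _ = some none
  rw [h1, h2]

end aux

/-- Orthogonal vectors reduce to the emptiness of `P_{A,B}`: the automaton `autA U` depends on the first
list of vectors only, `autB V` on the second only. -/
theorem result {n d : ℕ} (U V : Fin n → Fin d → Bool) :
    ((∃ x, x ∈ (autA U).accepts ∧ x.reverse ∈ (autB V).accepts) ↔
      ∃ i j, ∀ k, ¬ (U i k = true ∧ V j k = true)) ∧
    Fintype.card (St n d) = n * (d + 2) + 2 := by
  refine ⟨⟨?_, ?_⟩, ?_⟩
  · rintro ⟨x, hA, hB⟩
    obtain ⟨i, w, hw, hl, hi⟩ := gad_sound _ x hA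
    obtain ⟨j, w', hw', hl', hj⟩ := gad_sound _ x.reverse hB
    have hrev : w' = w.reverse := by
      rw [← hw', ← hw, List.filterMap_reverse]
    refine ⟨i, j, fun k hk => ?_⟩
    have h1 := hi k
    have h2 := hj k.rev
    rw [Fin.rev_rev, hk.2] at h2
    rw [hk.1] at h1
    have h3 : w'.getD k.rev.val false = w.getD k.val false := by
      rw [hrev]
      have hk1 : k.rev.val < w.reverse.length := by
        rw [List.length_reverse, hl]; exact k.rev.isLt
      have hk2 : k.val < w.length := by rw [hl]; exact k.isLt
      rw [List.getD_eq_getElem _ _ hk1, List.getD_eq_getElem _ _ hk2, List.getElem_reverse]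
      congr 1
      rw [hl, Fin.val_rev]
      omega
    rw [h3] at h2
    generalize w.getD k.val false = b at h1 h2
    cases b
    · exact absurd h1 (by decide)
    · exact absurd h2 (by decide)
  · rintro ⟨i, j, hij⟩
    obtain ⟨w, hw⟩ : ∃ w : List Bool, w = List.ofFn (U i) := ⟨_, rfl⟩
    have hl : w.length = d := by rw [hw, List.length_ofFn]
    have hget : ∀ k : Fin d, w.getD k.val false = U i k := by
      intro k
      have hk2 : k.val < w.length := by rw [hl]; exact k.isLt
      rw [List.getD_eq_getElem _ _ hk2]
      simp [hw]
    have hgetr : ∀ k : Fin d, w.reverse.getD k.val false = U i k.rev := by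
      intro k
      have hk1 : k.val < w.reverse.length := by rw [List.length_reverse, hl]; exact k.isLt
      have hk2 : k.rev.val < w.length := by rw [hl]; exact k.rev.isLt
      rw [← hget k.rev, List.getD_eq_getElem _ _ hk1, List.getD_eq_getElem _ _ hk2,
        List.getElem_reverse]
      congr 1
      rw [hl, Fin.val_rev]
      omega
    refine ⟨List.replicate i.val (Sum.inr true) ++ Sum.inr false ::
      (w.map Sum.inl ++ Sum.inr false :: List.replicate j.val (Sum.inr true)), ?_, ?_⟩
    · refine gad_complete _ i j.val w hl (fun k => ?_)
      rw [hget]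
      cases U i k <;> rfl
    · have h1 : (List.replicate i.val (Sum.inr true : Bool ⊕ Bool) ++ Sum.inr false ::
          (w.map Sum.inl ++ Sum.inr false :: List.replicate j.val (Sum.inr true))).reverse =
          List.replicate j.val (Sum.inr true) ++ Sum.inr false ::
          (w.reverse.map Sum.inl ++ Sum.inr false :: List.replicate i.val (Sum.inr true)) := by
        simp [List.reverse_append, List.reverse_cons, List.map_reverse]
      rw [h1]
      refine gad_complete _ j i.val w.reverse (by rw [List.length_reverse, hl]) (fun k => ?_)
      rw [hgetr]
      have h2 := hij k.rev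
      cases hu : U i k.rev <;> cases hv : V j k.rev <;> simp [hu, hv] at h2 ⊢
  · simp only [St, Fintype.card_option, Fintype.card_sum, Fintype.card_prod, Fintype.card_fin]
    ring

end Pool.Agent.Lib.Reserve.MP_cde0c0_lc.OrthogonalVectors
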